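import Pool.Agent.Zk71.Rh.Spaces
import Pool.Agent.Zk71.Rh.I

/-!
# Hilbert-Schmidt Hankel operators with conjugate holomorphic symbols on bounded Reinhardt domains

For `n ≥ 2` and every bounded Reinhardt domain `Ω` in `ℂⁿ` (no completeness, pseudoconvexity or
logarithmic convexity is assumed), the only Hilbert-Schmidt Hankel operator `H_{\bar f}` with `f`
holomorphic on `Ω` is `0`, and then `f` is constant.

Idea of the proof. Let `c_β` be a nonzero Laurent coefficient of `f` with `β ≠ 0`, let `S` be the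
set of the exponents `α` with `z^α ∈ A²(Ω)` and let `c(α)` be the squared norm of `z^α`. Testing
`H z^α` against functions of weight `α - β` which are orthogonal to `A²(Ω)` gives `α + β ∈ S` and
`‖H z^α‖² ≥ |c_β|² (c(α+β) - c(α)²/c(α-β))`, without the last term if `α - β ∉ S`. Dividing by
`c(α)` and summing along the line `α + ℤβ` the lower bound telescopes, and it is at least a fixed
positive number for every line which meets `S`. For `n ≥ 2` there are infinitely many lines.
-/

set_option autoImplicit false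

open MeasureTheory Filter Topology Set Complex

namespace Pool.Agent.Results.MP_dc9318_an.NoHilbertSchmidtHankel

open Pool.Agent.Zk71.Rh

theorem result {n : ℕ} (hn : 2 ≤ n) {Ω : Set (Fin n → ℂ)} (hopen : IsOpen Ω)
    (hconn : IsConnected Ω) (hbdd : Bornology.IsBounded Ω) (hrein : Reinhardt Ω)
    {f : (Fin n → ℂ) → ℂ} (hf : DifferentiableOn ℂ f Ω) (hdense : Dense (hankelDomain Ω f))
    {H : A2 Ω →L[ℂ] L2 Ω} (hH : ExtendsHankel f H) (hs : IsHS H) :
    (∀ g : A2 Ω, H g = 0) ∧ ∃ c : ℂ, ∀ z ∈ Ω, f z = c := by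
  have h : Dom Ω := ⟨hopen, hconn, hbdd, hrein, hn⟩
  obtain ⟨ι, b, hs⟩ := hs
  have hH' : IsHankelExtension Ω f (H : bergman Ω →L[ℂ] Lp ℂ 2 (volume.restrict Ω)) := by
    refine ⟨hdense.mono ?_, ?_, ?_⟩
    · rintro g ⟨v, hv⟩
      exact (memLp_congr_ae hv).1 (Lp.memLp (show Lp ℂ 2 (volume.restrict Ω) from v))
    · intro g hg
      exact (hH g hg.toLp hg.coeFn_toLp).1
    · intro g hg u hu
      exact (hH g hg.toLp hg.coeFn_toLp).2 u hu
  have h0 : (H : bergman Ω →L[ℂ] Lp ℂ 2 (volume.restrict Ω)) = 0 := h.main hf hH' b hs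
  refine ⟨fun g => ?_, ?_⟩
  · exact congrArg (fun T : bergman Ω →L[ℂ] Lp ℂ 2 (volume.restrict Ω) => T g) h0
  obtain ⟨c, hc⟩ := exists_coef h.isOpen h.conn h.rein hf 0
  have hconst : f =ᵐ[volume.restrict Ω] fun _ => c := by
    filter_upwards [ae_restrict_mem h.isOpen.measurableSet,
      ae_restrict_of_ae (s := Ω) (ae_star (n := n))] with z hz hst
    have h1 := const_of_coef h.rein hf.continuousOn hz (fun β hβ => by
      obtain ⟨d, hd⟩ := exists_coef h.isOpen h.conn h.rein hf β
      rw [hd z hz hst, h.coef_zero hf hH' b hs hβ hd, zero_mul])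
    rw [h1, hc z hz hst, mon_zero, mul_one]
  exact ⟨c, Measure.eqOn_open_of_ae_eq hconst hopen hf.continuousOn continuousOn_const⟩

end Pool.Agent.Results.MP_dc9318_an.NoHilbertSchmidtHankel
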